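import Pool.Agent.Helper70.MB.Goals

/-!
Project MB: the local representation of the pairing with `cut x₀ ρ * g` (goal `KEYF`).
-/

open MeasureTheory Set Metric
open scoped ENNReal FourierTransform Topology ContDiff
open _root_.Pool.Agent.Results.MP_91ee6f_gt
open _root_.Pool.Agent.Helper70.MB

namespace Pool.Agent.Helper58.MB

lemma hat_sub {n : ℕ} {f g : En n → ℝ} (hf : Integrable f) (hg : Integrable g) (ξ : En n) :
    hat (fun x => f x - g x) ξ = hat f ξ - hat g ξ := by
  have h1 := hat_add hf (hg.const_mul (-1)) ξ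
  rw [hat_const_mul] at h1
  have e : (fun x => f x - g x) = fun x => f x + (-1) * g x := by
    ext x
    ring
  rw [e, h1]
  push_cast
  ring

lemma pair_integrable {n : ℕ} {h f : En n → ℝ} (hh : Ad h) (hf : Ad f) :
    Integrable (fun ξ : En n => br ξ ^ sx n * ((starRingEnd ℂ) (hat h ξ) * hat f ξ).re) := by
  refine (hh.2.2.add hf.2.2).mono' ?_ (Filter.Eventually.of_forall fun ξ => ?_)
  · exact ((continuous_br_rpow _).mul (Complex.continuous_re.comp
      ((Complex.continuous_conj.comp (continuous_hat hh.2.1)).mul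
        (continuous_hat hf.2.1)))).aestronglyMeasurable
  · have h1 : |((starRingEnd ℂ) (hat h ξ) * hat f ξ).re| ≤ ‖hat h ξ‖ * ‖hat f ξ‖ := by
      refine (Complex.abs_re_le_norm _).trans ?_
      rw [norm_mul, RCLike.norm_conj]
    rw [Real.norm_eq_abs, abs_mul, abs_of_pos (br_rpow_pos ξ _), Pi.add_apply, ← mul_add]
    refine mul_le_mul_of_nonneg_left (h1.trans ?_) (br_rpow_pos ξ _).le
    nlinarith [sq_nonneg (‖hat h ξ‖ - ‖hat f ξ‖), sq_nonneg (‖hat h ξ‖), sq_nonneg (‖hat f ξ‖)]

lemma Ad_sub {n : ℕ} {f g : En n → ℝ} (hf : Ad f) (hg : Ad g) : Ad (fun x => f x - g x) := by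
  refine ⟨hf.1.sub hg.1, hf.2.1.sub hg.2.1, ?_⟩
  refine ((hf.2.2.const_mul 2).add (hg.2.2.const_mul 2)).mono' ?_
    (Filter.Eventually.of_forall fun ξ => ?_)
  · exact ((continuous_br_rpow _).mul
      ((continuous_hat (hf.2.1.sub hg.2.1)).norm.pow 2)).aestronglyMeasurable
  · rw [hat_sub hf.2.1 hg.2.1, Real.norm_eq_abs,
      abs_of_nonneg (mul_nonneg (br_rpow_pos ξ _).le (sq_nonneg _))]
    have h1 := norm_sub_le (hat f ξ) (hat g ξ)
    have h2 : ‖hat f ξ - hat g ξ‖ ^ 2 ≤ 2 * ‖hat f ξ‖ ^ 2 + 2 * ‖hat g ξ‖ ^ 2 := by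
      nlinarith [sq_nonneg (‖hat f ξ‖ - ‖hat g ξ‖), norm_nonneg (hat f ξ - hat g ξ),
        norm_nonneg (hat f ξ), norm_nonneg (hat g ξ)]
    have h3 := mul_le_mul_of_nonneg_left h2 (br_rpow_pos ξ (sx n)).le
    simp only [Pi.add_apply]
    linarith

lemma pair_sub {n : ℕ} {h f g : En n → ℝ} (hh : Ad h) (hf : Ad f) (hg : Ad g) :
    pair h (fun x => f x - g x) = pair h f - pair h g := by
  unfold pair
  rw [← integral_sub (pair_integrable hh hf) (pair_integrable hh hg)]
  refine integral_congr_ae (Filter.Eventually.of_forall fun ξ => ?_)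
  simp only []
  rw [hat_sub hf.2.1 hg.2.1, mul_sub, Complex.sub_re]
  ring

lemma pot_nonneg {n : ℕ} (τ : Measure (En n)) (x : En n) : 0 ≤ potential τ x :=
  integral_nonneg fun _ => (Real.exp_pos _).le

lemma pot_le {n : ℕ} (τ : Measure (En n)) [IsFiniteMeasure τ] (x : En n) :
    potential τ x ≤ τ.real univ := by
  have h : potential τ x ≤ ∫ _, (1 : ℝ) ∂τ := by
    unfold potential
    refine integral_mono_of_nonneg (Filter.Eventually.of_forall fun _ => (Real.exp_pos _).le)
      (integrable_const _) (Filter.Eventually.of_forall fun y => ?_)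
    simp only []
    rw [Real.exp_le_one_iff]
    exact neg_nonpos.2 dist_nonneg
  simpa using h

lemma measurable_kap {n : ℕ} : Measurable (kap : En n → ℝ) := by
  unfold kap
  fun_prop

/-- the dominating function -/
noncomputable def dom {n : ℕ} (δ : ℝ) : En n → ℝ := indicator {z | δ ≤ ‖z‖} kap

lemma integrable_dom {n : ℕ} (hK : KAPI) (hn : 1 ≤ n) {δ : ℝ} (hδ : 0 < δ) :
    Integrable (dom δ : En n → ℝ) := by
  unfold dom
  rw [integrable_indicator_iff (measurableSet_le measurable_const measurable_norm)]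
  exact (hK n hn).1 δ hδ

lemma dom_nonneg {n : ℕ} (δ : ℝ) (z : En n) : 0 ≤ dom δ z :=
  indicator_nonneg (fun z _ => kap_nonneg z) z

theorem goalKEYF : SCAL → OFFD → PAIRU → PAIR1 → KAPI → KEYF := by
  intro hS hO hPU hP1 hK n hn
  obtain ⟨C, hC, hoff⟩ := hO n hn
  obtain ⟨CS, hCS, hscal⟩ := hS n hn
  refine ⟨C, hC, fun τ hτ x₀ ρ hρ => ?_⟩
  obtain ⟨hUad, hUpair⟩ := hPU n hn τ hτ
  have hcU : Ad (fun x => cut x₀ ρ x * potential τ x) := ((hscal x₀ ρ hρ).1 _ hUad).1
  have hc1 : Ad (cut x₀ ρ) := (hscal x₀ ρ hρ).2.1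
  have hu : Ad (fun x => cut x₀ ρ x * gg τ x) := by
    have h1 := Ad_sub hcU hc1
    have e : (fun x => cut x₀ ρ x * gg τ x) =
        (fun x => cut x₀ ρ x * potential τ x - cut x₀ ρ x) := by
      ext x
      unfold gg
      ring
    rw [e]
    exact h1
  refine ⟨hu, fun h hh hsupp => ?_⟩
  set v : ℝ → En n → ℝ := fun M x => potential τ x - cut x₀ M x - cut x₀ ρ x * gg τ x with hv
  have hvad : ∀ M, 0 < M → Ad (v M) := fun M hM =>
    Ad_sub (Ad_sub hUad (hscal x₀ M hM).2.1) hu
  have hveq : ∀ M, 2 * ρ ≤ M → ∀ x, v M x = (1 - cut x₀ ρ x) * (potential τ x - cut x₀ M x) := by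
    intro M hM x
    simp only [hv]
    by_cases hx : 2 * ρ ≤ ‖x - x₀‖
    · rw [cut_zero hρ hx]
      ring
    · rw [cut_one (by linarith : (0 : ℝ) < M) ((not_le.1 hx).le.trans hM)]
      unfold gg
      ring
  have hvz : ∀ M, 2 * ρ ≤ M → ∀ x, ‖x - x₀‖ ≤ ρ → v M x = 0 := by
    intro M hM x hx
    rw [hveq M hM, cut_one hρ hx]
    ring
  have hpair : ∀ M, 0 < M → pair h (v M) = CK n * ∫ x, h x ∂τ - pair h (cut x₀ M) -
      pair h (fun x => cut x₀ ρ x * gg τ x) := by
    intro M hM
    have h1 := pair_sub hh (Ad_sub hUad (hscal x₀ M hM).2.1) hu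
    have h2 := pair_sub hh hUad (hscal x₀ M hM).2.1
    rw [hUpair h hh] at h2
    simp only [hv]
    rw [h1, h2]
  have hsep : ∀ M, 2 * ρ ≤ M → ∀ x y : En n, h y ≠ 0 → v M x ≠ 0 → ρ / 2 ≤ ‖x - y‖ := by
    intro M hM x y hy hx
    have h1 := hsupp y hy
    have h2 : ρ < ‖x - x₀‖ := by
      by_contra h3
      exact hx (hvz M hM x (not_lt.1 h3))
    have h3 : ‖x - x₀‖ ≤ ‖x - y‖ + ‖y - x₀‖ := norm_sub_le_norm_sub_add_norm_sub x y x₀
    linarith
  have hoffM : ∀ M, 2 * ρ ≤ M → |pair h (v M)| ≤ C * ∫ y, |h y| * ∫ x, kap (x - y) * |v M x| ∧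
      (Odd n → pair h (v M) = 0) := by
    intro M hM
    exact hoff h (v M) hh (hvad M (by linarith)) (ρ / 2) (by linarith) (hsep M hM)
  have hlim1 := hP1 n hn x₀ h hh
  have hev : ∀ᶠ M : ℝ in Filter.atTop, 2 * ρ ≤ M := Filter.eventually_ge_atTop _
  constructor
  · set B : ℝ := τ.real univ + 1 with hB
    have hBpos : 0 ≤ B := by positivity
    have hvB : ∀ M, 2 * ρ ≤ M → ∀ x, |v M x| ≤ B := by
      intro M hM x
      rw [hveq M hM, abs_mul, abs_of_nonneg (sub_nonneg.2 (cut_le_one x₀ ρ x))]
      have h1 : |potential τ x - cut x₀ M x| ≤ B := by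
        rw [abs_le]
        have := pot_nonneg τ x
        have := pot_le τ x
        have := cut_nonneg x₀ M x
        have := cut_le_one x₀ M x
        have := measureReal_nonneg (μ := τ) (s := univ)
        constructor <;> linarith
      have h2 := cut_nonneg x₀ ρ x
      have h3 := cut_le_one x₀ ρ x
      calc (1 - cut x₀ ρ x) * |potential τ x - cut x₀ M x| ≤ 1 * B :=
            mul_le_mul (by linarith) h1 (abs_nonneg _) zero_le_one
        _ = B := one_mul _
    have hdom := integrable_dom hK hn (show 0 < ρ / 2 by linarith)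
    -- pointwise bound
    have hptb : ∀ M, 2 * ρ ≤ M → ∀ x y : En n, ‖y - x₀‖ ≤ ρ / 2 →
        kap (x - y) * |v M x| ≤ dom (ρ / 2) (x - y) * B := by
      intro M hM x y hy
      by_cases hx : ‖x - x₀‖ ≤ ρ
      · rw [hvz M hM x hx, abs_zero, mul_zero]
        exact mul_nonneg (dom_nonneg _ _) hBpos
      · have h3 : ‖x - x₀‖ ≤ ‖x - y‖ + ‖y - x₀‖ := norm_sub_le_norm_sub_add_norm_sub x y x₀
        have h4 : x - y ∈ {z : En n | ρ / 2 ≤ ‖z‖} := by
          show ρ / 2 ≤ ‖x - y‖
          linarith [not_le.1 hx]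
        unfold dom
        rw [indicator_of_mem h4]
        exact mul_le_mul_of_nonneg_left (hvB M hM x) (kap_nonneg _)
    have hshift : ∀ y : En n, Integrable (fun x : En n => dom (ρ / 2) (x - y) * B) := fun y =>
      (hdom.comp_sub_right y).mul_const B
    have hvmeas : ∀ M, 0 < M → Measurable (v M) := fun M hM => (hvad M hM).1.measurable
    have hin : ∀ y : En n, ‖y - x₀‖ ≤ ρ / 2 →
        Filter.Tendsto (fun M : ℝ => ∫ x, kap (x - y) * |v M x|) Filter.atTop
          (𝓝 (tl τ x₀ ρ y)) := by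
      intro y hy
      unfold tl
      refine tendsto_integral_filter_of_dominated_convergence
        (fun x => dom (ρ / 2) (x - y) * B) ?_ ?_ (hshift y) ?_
      · filter_upwards [hev] with M hM
        exact ((measurable_kap.comp (measurable_id.sub_const y)).mul
          (hvmeas M (by linarith)).abs).aestronglyMeasurable
      · filter_upwards [hev] with M hM
        refine Filter.Eventually.of_forall fun x => ?_
        rw [Real.norm_eq_abs, abs_of_nonneg (mul_nonneg (kap_nonneg _) (abs_nonneg _))]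
        exact hptb M hM x y hy
      · refine Filter.Eventually.of_forall fun x => ?_
        refine tendsto_const_nhds.congr' ?_
        filter_upwards [hev, Filter.eventually_ge_atTop ‖x - x₀‖] with M hM hMx
        rw [hveq M hM, cut_one (by linarith : (0 : ℝ) < M) hMx, abs_mul,
          abs_of_nonneg (sub_nonneg.2 (cut_le_one x₀ ρ x))]
        rfl
    have hout : Filter.Tendsto (fun M : ℝ => ∫ y, |h y| * ∫ x, kap (x - y) * |v M x|)
        Filter.atTop (𝓝 (∫ y, |h y| * tl τ x₀ ρ y)) := by
      refine tendsto_integral_filter_of_dominated_convergence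
        (fun y => |h y| * (∫ z : En n, dom (ρ / 2) z * B)) ?_ ?_
        (hh.2.1.abs.mul_const _) ?_
      · filter_upwards [hev] with M hM
        refine (hh.1.measurable.abs.aestronglyMeasurable).mul ?_
        refine StronglyMeasurable.aestronglyMeasurable ?_
        refine StronglyMeasurable.integral_prod_right
          (f := fun y x : En n => kap (x - y) * |v M x|) ?_
        exact ((measurable_kap.comp (measurable_snd.sub measurable_fst)).mul
          ((hvmeas M (by linarith)).comp measurable_snd).abs).stronglyMeasurable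
      · filter_upwards [hev] with M hM
        refine Filter.Eventually.of_forall fun y => ?_
        have h0 : 0 ≤ ∫ x, kap (x - y) * |v M x| :=
          integral_nonneg fun x => mul_nonneg (kap_nonneg _) (abs_nonneg _)
        rw [Real.norm_eq_abs, abs_of_nonneg (mul_nonneg (abs_nonneg _) h0)]
        by_cases hy : h y = 0
        · rw [hy, abs_zero, zero_mul, zero_mul]
        · refine mul_le_mul_of_nonneg_left ?_ (abs_nonneg _)
          have h1 : ∫ z : En n, dom (ρ / 2) z * B = ∫ x : En n, dom (ρ / 2) (x - y) * B :=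
            (integral_sub_right_eq_self (fun z : En n => dom (ρ / 2) z * B) y).symm
          rw [h1]
          refine integral_mono_of_nonneg
            (Filter.Eventually.of_forall fun x => mul_nonneg (kap_nonneg _) (abs_nonneg _))
            (hshift y) (Filter.Eventually.of_forall fun x => hptb M hM x y (hsupp y hy))
      · refine Filter.Eventually.of_forall fun y => ?_
        by_cases hy : h y = 0
        · simp only [hy, abs_zero, zero_mul]
          exact tendsto_const_nhds
        · exact (hin y (hsupp y hy)).const_mul _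
    have hL : Filter.Tendsto (fun M : ℝ => |pair h (fun x => cut x₀ ρ x * gg τ x) -
        (CK n * ∫ x, h x ∂τ - pair h (cut x₀ M))|) Filter.atTop
        (𝓝 |pair h (fun x => cut x₀ ρ x * gg τ x) - (CK n * ∫ x, h x ∂τ - ∫ x, h x)|) :=
      (tendsto_const_nhds.sub (tendsto_const_nhds.sub hlim1)).abs
    refine le_of_tendsto_of_tendsto hL (hout.const_mul C) ?_
    filter_upwards [hev] with M hM
    have h1 := (hoffM M hM).1
    rw [hpair M (by linarith)] at h1
    refine le_trans (le_of_eq ?_) h1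
    rw [← abs_neg]
    congr 1
    ring
  · intro hodd
    have h1 : Filter.Tendsto (fun M : ℝ => pair h (cut x₀ M)) Filter.atTop
        (𝓝 (CK n * ∫ x, h x ∂τ - pair h (fun x => cut x₀ ρ x * gg τ x))) := by
      refine tendsto_const_nhds.congr' ?_
      filter_upwards [hev] with M hM
      have h2 := (hoffM M hM).2 hodd
      rw [hpair M (by linarith)] at h2
      linarith
    have h3 := tendsto_nhds_unique hlim1 h1
    linarith

end Pool.Agent.Helper58.MB
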